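import Pool.Agent.U762.RP.Stm

set_option autoImplicit false

/-! Project RP, package REC: the linear recursion tends to `0`. -/

namespace Pool.Agent.U165.RP.REC

open Filter Pool.Agent.U762.RP

theorem t_REC : S_REC := by
  intro ε R ρ hε hε1 hR hρ hρ1 hq
  have hq0 : 0 < (1 - ε) * R := mul_pos (by linarith) hR
  obtain ⟨t, ht1, ht2⟩ := exists_between (max_lt hq hρ1)
  have htq : (1 - ε) * R < t := (le_max_left _ _).trans_lt ht1
  have htρ : ρ < t := (le_max_right _ _).trans_lt ht1
  have ht0 : 0 < t := hq0.trans htq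
  have hd : 0 < t - (1 - ε) * R := by linarith
  have hRε : 0 < R * ε := mul_pos hR hε
  set C : ℝ := 1 + R * ε / (t - (1 - ε) * R) with hC
  have hC1 : R * ε ≤ (t - (1 - ε) * R) * C := by
    rw [hC, mul_add, mul_one, mul_div_cancel₀ _ hd.ne']
    linarith
  have hC0 : 1 ≤ C := by
    rw [hC]
    have := div_pos hRε hd
    linarith
  have h0 : ∀ k, 0 ≤ g ε R ρ k := by
    intro k
    induction k with
    | zero => exact zero_le_one
    | succ k ih =>
      have h1 : 0 ≤ ε * ρ ^ k := mul_nonneg hε.le (pow_nonneg hρ k)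
      have h2 : 0 ≤ (1 - ε) * g ε R ρ k := mul_nonneg (by linarith) ih
      exact mul_nonneg hR.le (add_nonneg h1 h2)
  have h1 : ∀ k, g ε R ρ k ≤ C * t ^ k := by
    intro k
    induction k with
    | zero => simpa [g] using hC0
    | succ k ih =>
      have h2 : ρ ^ k ≤ t ^ k := pow_le_pow_left₀ hρ htρ.le k
      have h3 : R * ε * ρ ^ k ≤ (t - (1 - ε) * R) * C * t ^ k :=
        (mul_le_mul_of_nonneg_left h2 hRε.le).trans
          (mul_le_mul_of_nonneg_right hC1 (pow_nonneg ht0.le k))
      have h4 : (1 - ε) * R * g ε R ρ k ≤ (1 - ε) * R * (C * t ^ k) :=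
        mul_le_mul_of_nonneg_left ih hq0.le
      calc g ε R ρ (k + 1) = R * ε * ρ ^ k + (1 - ε) * R * g ε R ρ k := by
            change R * (ε * ρ ^ k + (1 - ε) * g ε R ρ k) = _
            ring
        _ ≤ (t - (1 - ε) * R) * C * t ^ k + (1 - ε) * R * (C * t ^ k) := add_le_add h3 h4
        _ = C * t ^ (k + 1) := by ring
  have h5 : Tendsto (fun k : ℕ => C * t ^ k) atTop (nhds 0) := by
    have := (tendsto_pow_atTop_nhds_zero_of_lt_one ht0.le ht2).const_mul C
    rwa [mul_zero] at this
  exact squeeze_zero h0 h1 h5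

end Pool.Agent.U165.RP.REC
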